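import Mathlib

set_option autoImplicit false

namespace Pool.Agent.Results.MP_216313_al.AntiTori

open Polynomial nonZeroDivisors

universe u

/-- The relators `a_i x_j a_{i-j}⁻¹ x_{i+j}⁻¹`; `inl i` is `a_i` and `inr j` is `x_j`. -/
def rels (X : Type u) [AddCommGroup X] : Set (FreeGroup (X ⊕ X)) :=
  {w | ∃ i j : X, w = FreeGroup.of (Sum.inl i) * FreeGroup.of (Sum.inr j) *
    (FreeGroup.of (Sum.inl (i - j)))⁻¹ * (FreeGroup.of (Sum.inr (i + j)))⁻¹}

def aff {K : Type u} [CommRing K] (c : K) : Kˣ →* Equiv.Perm K where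
  toFun a :=
    { toFun := fun v => a * (v - c) + c
      invFun := fun v => (a⁻¹ : Kˣ) * (v - c) + c
      left_inv := fun v => by simp
      right_inv := fun v => by simp }
  map_one' := by ext v; simp
  map_mul' a b := by ext v; simp [mul_assoc]

theorem aff_apply {K : Type u} [CommRing K] (c : K) (a : Kˣ) (v : K) :
    aff c a v = a * (v - c) + c := rfl

theorem reg {A : Type u} [CommRing A] (P : A[X]) (t : A) (h : IsUnit (P.eval t)) :
    IsUnit (algebraMap A[X] (FractionRing A[X]) P) := by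
  refine IsLocalization.map_units (FractionRing A[X]) (⟨P, ?_⟩ : A[X]⁰)
  by_contra hP
  obtain ⟨a, ha, h0⟩ := Polynomial.notMem_nonZeroDivisors_iff.1 hP
  have := congrArg (eval t) h0
  rw [eval_smul, smul_eq_mul, eval_zero] at this
  exact ha (h.mul_left_eq_zero.1 this)

theorem nat_comm {G : Type u} [Group G] (a b : G) (p q : ℤ) (h : Commute (a ^ p) (b ^ q)) :
    Commute (a ^ p.natAbs) (b ^ q.natAbs) := by
  rw [← zpow_natCast, ← zpow_natCast]
  rcases Int.natAbs_eq p with hp | hp <;> rcases Int.natAbs_eq q with hq | hq <;>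
    rw [hp, hq] at h <;> simpa using h

theorem ex_ring (X : Type u) [AddCommGroup X] :
    ∃ (A : Type u) (_ : CommRing A) (c : X →+ A), Function.Injective c := by
  letI : Module ℤᵐᵒᵖ X := Module.compHom _ ((RingHom.id ℤ).fromOpposite mul_comm)
  haveI : IsCentralScalar ℤ X := ⟨fun _ _ => rfl⟩
  exact ⟨TrivSqZeroExt ℤ X, inferInstance, (TrivSqZeroExt.inrHom ℤ X).toAddMonoidHom,
    TrivSqZeroExt.inr_injective⟩

theorem result (X : Type u) [AddCommGroup X] (i j : X) (hij : (i, j) ≠ (0, 0)) (p q : ℤ)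
    (hp : p ≠ 0) (hq : q ≠ 0) :
    (PresentedGroup.of (Sum.inl i) : PresentedGroup (rels X)) ^ p *
        (PresentedGroup.of (Sum.inr j) : PresentedGroup (rels X)) ^ q ≠
      (PresentedGroup.of (Sum.inr j) : PresentedGroup (rels X)) ^ q *
        (PresentedGroup.of (Sum.inl i) : PresentedGroup (rels X)) ^ p := by
  intro h
  have hc := nat_comm _ _ p q h
  obtain ⟨m, hm⟩ := Nat.exists_eq_succ_of_ne_zero (Int.natAbs_ne_zero.2 hp)
  obtain ⟨n, hn⟩ := Nat.exists_eq_succ_of_ne_zero (Int.natAbs_ne_zero.2 hq)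
  rw [hm, hn] at hc
  obtain ⟨A, _, c, hcinj⟩ := ex_ring X
  obtain ⟨f, hf⟩ : ∃ f : A[X] →+* FractionRing A[X],
    f = algebraMap _ _ := ⟨_, rfl⟩
  have hr : ∀ (P : A[X]) (t : A), IsUnit (P.eval t) →
    IsUnit (f P) := fun P t h => hf ▸ reg P t h
  have finj : Function.Injective f := hf ▸ IsFractionRing.injective _ _
  obtain ⟨β, hβ⟩ := hr Polynomial.X 1 (by simp)
  obtain ⟨δ, hδ⟩ := hr (1 - Polynomial.X) 0 (by simp)
  obtain ⟨ε, hε⟩ := hr (1 - 2 * Polynomial.X) 0 (by simp)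
  have hu := hr ((1 - Polynomial.X) ^ (m + 1) - (1 - 2 * Polynomial.X) ^ (m + 1)) 1 (by
    have : (1 - 2 : A) = -1 := by norm_num
    simp [this])
  have hv := hr (1 - Polynomial.X ^ (n + 1)) 0 (by simp)
  rw [map_sub, map_pow, map_pow, ← hδ, ← hε] at hu
  rw [map_sub, map_pow, map_one, ← hβ] at hv
  rw [map_sub, map_one, ← hβ] at hδ
  rw [map_sub, map_one, map_mul, map_ofNat, ← hβ] at hε
  obtain ⟨χ, hχ⟩ : ∃ χ : X →+ FractionRing A[X],
      ∀ x, χ x = f (C (c x)) :=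
    ⟨⟨⟨fun x => f (C (c x)), by simp⟩, by simp⟩, fun _ => rfl⟩
  obtain ⟨α, hα⟩ : ∃ α : (FractionRing A[X])ˣ, α.1 * δ = ε :=
    ⟨ε * δ⁻¹, by simp⟩
  obtain ⟨γ, hγ⟩ : ∃ γ : FractionRing A[X], γ * β = δ :=
    ⟨(δ * β⁻¹ : _ˣ), by simp⟩
  have h1 : (1 - α.1) * γ = 1 := by
    refine β.isUnit.mul_right_cancel ?_
    linear_combination (1 - α.1) * hγ - hα + hδ - hε
  obtain ⟨g, hg1, hg2⟩ : ∃ g : X ⊕ X → Equiv.Perm (FractionRing A[X]),
      (∀ x, g (Sum.inl x) = aff (γ * χ x) α) ∧ ∀ x, g (Sum.inr x) = aff (χ x) β :=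
    ⟨Sum.elim _ _, fun _ => rfl, fun _ => rfl⟩
  have hrel : ∀ r ∈ rels X, FreeGroup.lift g r = 1 := by
    rintro _ ⟨a, b, rfl⟩
    simp only [map_mul, map_inv, FreeGroup.lift_apply_of, hg1, hg2]
    rw [mul_inv_eq_one, mul_inv_eq_iff_eq_mul]
    ext v
    simp only [Equiv.Perm.mul_apply, aff_apply, map_add, map_sub]
    linear_combination (χ a - β.1 * (χ a - χ b)) * h1 + χ b * hα - χ b * α.1 * hδ + χ b * hε
  have h2 := (hc.map (PresentedGroup.toGroup hrel)).eq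
  simp only [map_pow, PresentedGroup.toGroup.of, hg1, hg2] at h2
  simp only [← map_pow] at h2
  have h3 := DFunLike.congr_fun h2 0
  simp only [Equiv.Perm.mul_apply, aff_apply, Units.val_pow_eq_pow_val, Nat.succ_eq_add_one] at h3
  have h4 : (δ.1 ^ (m + 1) - ε.1 ^ (m + 1)) * ((1 - β.1 ^ (n + 1)) * (γ * χ i - χ j)) = 0 := by
    rw [← hα, mul_pow]
    linear_combination δ.1 ^ (m + 1) * h3
  have h5 := hv.mul_right_eq_zero.1 (hu.mul_right_eq_zero.1 h4)
  have h6 : f ((1 - Polynomial.X) * C (c i) -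
      Polynomial.X * C (c j)) = f 0 := by
    rw [map_sub, map_mul, map_mul, map_sub, map_one, ← hβ, ← hχ, ← hχ, map_zero]
    linear_combination β.1 * h5 - χ i * hγ - χ i * hδ
  have h7 := finj h6
  have e0 := congrArg (eval 0) h7
  have e1 := congrArg (eval 1) h7
  simp at e0 e1
  exact hij (by rw [(map_eq_zero_iff c hcinj).1 e0, (map_eq_zero_iff c hcinj).1 e1])

end Pool.Agent.Results.MP_216313_al.AntiTori
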